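import Mathlib
import Pool.Agent.Y734.R.Stms5

/-!
# Project Y734/R, job P3: the big cluster of a similarity
-/

set_option autoImplicit false

namespace Pool.Agent.Y734.R.P3

open Pool.Agent.Y734.R

theorem big (h : CluStmt) : BigStmt := by
  classical
  intro G _ _ _ q m e A hm hsim hdiag hsum s
  obtain ⟨h0, hsymm, htri, hle⟩ := hsim s
  have hde := hdiag s
  have hclu := h G q m e A hsim hdiag hsum s
  generalize A s = B at h0 hsymm htri hle hde hclu
  have he : 0 ≤ e := by
    rw [← hde ⟨0, hm⟩]; exact h0 _ _
  have hq : 0 < q := s.pos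
  have hP0 : ∃ x, 2 * q * (m - (Finset.univ.filter (fun j => (0 : G) ≤ B x j)).card) ≤ m := by
    refine ⟨⟨0, hm⟩, ?_⟩
    have : (Finset.univ.filter (fun j => (0 : G) ≤ B ⟨0, hm⟩ j)) = Finset.univ :=
      Finset.filter_true_of_mem fun j _ => h0 _ _
    rw [this]
    simp
  obtain ⟨b, hbT, hbmax⟩ := (((insert (0 : G)
    ((Finset.univ : Finset (Fin m × Fin m)).image (fun p => B p.1 p.2)))).filter
      (fun g => ∃ x, 2 * q * (m - (Finset.univ.filter (fun j => g ≤ B x j)).card) ≤ m)).exists_max_image
        id ⟨0, by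
          rw [Finset.mem_filter]
          exact ⟨Finset.mem_insert_self _ _, hP0⟩⟩
  rw [Finset.mem_filter] at hbT
  obtain ⟨-, x, hx⟩ := hbT
  have hb0 : 0 ≤ b := hbmax 0 (by
    rw [Finset.mem_filter]
    exact ⟨Finset.mem_insert_self _ _, hP0⟩)
  have hbm : ∀ i j, (∃ x, 2 * q * (m - (Finset.univ.filter (fun l => B i j ≤ B x l)).card) ≤ m) →
      B i j ≤ b := by
    intro i j hh
    refine hbmax (B i j) ?_
    rw [Finset.mem_filter]
    exact ⟨Finset.mem_insert_of_mem (Finset.mem_image.2 ⟨(i, j), Finset.mem_univ _, rfl⟩), hh⟩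
  set K : Finset (Fin m) := Finset.univ.filter (fun j => b ≤ B x j) with hK
  have memK : ∀ j, j ∈ K ↔ b ≤ B x j := by intro j; simp [hK]
  have hKK : ∀ i ∈ K, ∀ j ∈ K, b ≤ B i j := by
    intro i hi j hj
    rw [memK] at hi hj
    refine le_trans (le_min ?_ hj) (htri i x j)
    rw [hsymm]; exact hi
  refine ⟨K, b, hx, hb0, hKK, ?_⟩
  by_cases hbe : b < e
  · -- the clusters
    set C : Fin m → Finset (Fin m) := fun i => Finset.univ.filter (fun j => b < B i j) with hC
    have memC : ∀ i j, j ∈ C i ↔ b < B i j := by intro i j; simp [hC]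
    have hself : ∀ i, i ∈ C i := by
      intro i; rw [memC, hde]; exact hbe
    have hCK : ∀ i ∈ K, C i ⊆ K := by
      intro i hi j hj
      rw [memK] at hi ⊢
      rw [memC] at hj
      exact le_trans (le_min hi hj.le) (htri x i j)
    have hCC : ∀ i, ∀ j ∈ C i, ∀ j' ∈ C i, b < B j j' := by
      intro i j hj j' hj'
      rw [memC] at hj hj'
      refine lt_of_lt_of_le (lt_min ?_ hj') (htri j i j')
      rw [hsymm]; exact hj
    have hCout : ∀ i, ∀ j ∈ C i, ∀ l ∉ C i, B j l ≤ b := by
      intro i j hj l hl
      by_contra hlt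
      rw [not_le] at hlt
      rw [memC] at hj hl
      exact hl (lt_of_lt_of_le (lt_min hj hlt) (htri i j l))
    have hCeq : ∀ i, ∀ j ∈ C i, C j = C i := by
      intro i j hj
      ext l
      constructor
      · intro hl
        by_contra hl'
        exact absurd (hCout i j hj l hl') (not_le.2 ((memC _ _).1 hl))
      · intro hl
        rw [memC]
        exact hCC i j hj l hl
    have hnb : ∀ i, ¬ (2 * q * (m - (C i).card) ≤ m) := by
      intro i hbig
      obtain ⟨j0, hj0, hj0min⟩ := (C i).exists_min_image (fun j => B i j) ⟨i, hself i⟩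
      have heq : Finset.univ.filter (fun l => B i j0 ≤ B i l) = C i := by
        ext l
        rw [Finset.mem_filter, memC]
        constructor
        · intro hl
          exact lt_of_lt_of_le ((memC _ _).1 hj0) hl.2
        · intro hl
          exact ⟨Finset.mem_univ _, hj0min l ((memC _ _).2 hl)⟩
      have := hbm i j0 ⟨i, by rw [heq]; exact hbig⟩
      exact absurd this (not_le.2 ((memC _ _).1 hj0))
    have hS : ∀ i, ∑ j ∈ C i, ∑ l ∈ C i, (B j l - b) ≤ ∑ _j ∈ C i, (2 * q * (q - 1)) • e := by
      intro i
      have h1 := hnb i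
      rw [not_le] at h1
      have hcm : (C i).card < m := by
        by_contra hcon
        rw [not_lt] at hcon
        rw [Nat.sub_eq_zero_of_le hcon] at h1
        simp at h1
      have hmc : m - (C i).card ≠ 0 := by omega
      have h2 := hclu (C i) b hb0 hcm (fun j hj l hl => (hCC i j hj l hl).le)
        (fun j hj l hl => hCout i j hj l hl)
      have h3 : ((q - 1) * (C i).card * m) • e ≤
          (m - (C i).card) • ((C i).card • ((2 * q * (q - 1)) • e)) := by
        rw [smul_smul, smul_smul]
        refine nsmul_le_nsmul_left he ?_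
        calc (q - 1) * (C i).card * m ≤ (q - 1) * (C i).card * (2 * q * (m - (C i).card)) :=
              Nat.mul_le_mul_left _ h1.le
          _ = (m - (C i).card) * (C i).card * (2 * q * (q - 1)) := by ring
      rw [Finset.sum_const]
      exact (nsmul_le_nsmul_iff_right hmc).1 (h2.trans h3)
    have hinner : ∀ i ∈ K, ∑ j ∈ K, (B i j - b) = ∑ j ∈ C i, (B i j - b) := by
      intro i hi
      refine (Finset.sum_subset (hCK i hi) ?_).symm
      intro j hj hj'
      have h1 := hKK i hi j hj
      have h2 : B i j ≤ b := hCout i i (hself i) j hj'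
      rw [le_antisymm h2 h1, sub_self]
    calc ∑ i ∈ K, ∑ j ∈ K, (B i j - b) = ∑ i ∈ K, ∑ j ∈ C i, (B i j - b) :=
          Finset.sum_congr rfl hinner
      _ = ∑ D ∈ K.image C, ∑ i ∈ K.filter (fun i => C i = D), ∑ j ∈ C i, (B i j - b) :=
          (Finset.sum_fiberwise_of_maps_to (fun i hi => Finset.mem_image_of_mem _ hi) _).symm
      _ ≤ ∑ D ∈ K.image C, ∑ i ∈ K.filter (fun i => C i = D), (2 * q * (q - 1)) • e := by
          refine Finset.sum_le_sum ?_
          intro D hD
          obtain ⟨i0, hi0, rfl⟩ := Finset.mem_image.1 hD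
          have hfib : K.filter (fun i => C i = C i0) = C i0 := by
            ext l
            rw [Finset.mem_filter]
            constructor
            · intro hl
              rw [← hl.2]; exact hself l
            · intro hl
              exact ⟨hCK i0 hi0 hl, hCeq i0 l hl⟩
          rw [hfib]
          refine le_trans (le_of_eq ?_) (hS i0)
          refine Finset.sum_congr rfl ?_
          intro i hi
          rw [hCeq i0 i hi]
      _ = ∑ i ∈ K, (2 * q * (q - 1)) • e :=
          Finset.sum_fiberwise_of_maps_to (fun i hi => Finset.mem_image_of_mem _ hi) _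
      _ ≤ (2 * q * (q - 1) * m) • e := by
          rw [Finset.sum_const, smul_smul]
          refine nsmul_le_nsmul_left he ?_
          rw [mul_comm K.card]
          refine Nat.mul_le_mul_left _ ?_
          exact (Finset.card_le_univ K).trans_eq (Fintype.card_fin m)
  · rw [not_lt] at hbe
    calc ∑ i ∈ K, ∑ j ∈ K, (B i j - b) ≤ 0 := by
          refine Finset.sum_nonpos fun i _ => Finset.sum_nonpos fun j _ => ?_
          rw [sub_nonpos]
          exact ((hle i j).trans_eq (hde i)).trans hbe
      _ ≤ _ := nsmul_nonneg he _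

end Pool.Agent.Y734.R.P3
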